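import Pool.Agent.helper50.PHN.Spec

set_option autoImplicit false

namespace Pool.Agent.PHN

open Finset

theorem TAU_succ (j n : ℕ) : tau (j + 1) n = ∑ d ∈ n.divisors, tau j d := rfl

theorem TAU_zero (n : ℕ) : tau 0 n = if n = 1 then 1 else 0 := rfl

theorem TAU_one (j : ℕ) : tau j 1 = 1 := by
  induction j with
  | zero => rw [TAU_zero, if_pos rfl]
  | succ j ih => rw [TAU_succ, Nat.divisors_one, Finset.sum_singleton, ih]

theorem TAU_one' (n : ℕ) (hn : n ≠ 0) : tau 1 n = 1 := by
  rw [TAU_succ]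
  rw [Finset.sum_eq_single 1]
  · rw [TAU_zero, if_pos rfl]
  · intro d _ hd
    rw [TAU_zero, if_neg hd]
  · intro h
    exact absurd (Nat.mem_divisors.2 ⟨one_dvd _, hn⟩) h

theorem TAU_mul (j : ℕ) : ∀ a b : ℕ, a ≠ 0 → b ≠ 0 → tau j (a * b) ≤ tau j a * tau j b := by
  induction j with
  | zero =>
    intro a b _ _
    rw [TAU_zero, TAU_zero, TAU_zero]
    by_cases h : a * b = 1
    · rw [if_pos h, if_pos (Nat.eq_one_of_mul_eq_one_right h), if_pos (Nat.eq_one_of_mul_eq_one_left h)]
    · rw [if_neg h]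
      exact Nat.zero_le _
  | succ j ih =>
    intro a b ha hb
    rw [TAU_succ, TAU_succ, TAU_succ]
    have hdec : ∀ d ∈ (a * b).divisors, Nat.gcd d a * (d / Nat.gcd d a) = d := fun d _ =>
      Nat.mul_div_cancel' (Nat.gcd_dvd_left d a)
    have hinj : Set.InjOn (fun d => (Nat.gcd d a, d / Nat.gcd d a)) ((a * b).divisors : Set ℕ) := by
      intro d hd d' hd' h
      have h1 := hdec d hd
      have h2 := hdec d' hd'
      simp only [Prod.mk.injEq] at h
      rw [← h1, ← h2, h.1]
      rw [h.1] at h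
      rw [h.2]
    have h1 : ∑ d ∈ (a * b).divisors, tau j d =
        ∑ p ∈ (a * b).divisors.image (fun d => (Nat.gcd d a, d / Nat.gcd d a)), tau j (p.1 * p.2) := by
      rw [Finset.sum_image hinj]
      refine Finset.sum_congr rfl fun d hd => ?_
      rw [hdec d hd]
    rw [h1]
    have hsub : (a * b).divisors.image (fun d => (Nat.gcd d a, d / Nat.gcd d a)) ⊆ a.divisors ×ˢ b.divisors := by
      intro p hp
      rw [Finset.mem_image] at hp
      obtain ⟨d, hd, rfl⟩ := hp
      have hd1 := Nat.dvd_of_mem_divisors hd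
      rw [Finset.mem_product, Nat.mem_divisors, Nat.mem_divisors]
      refine ⟨⟨Nat.gcd_dvd_right d a, ha⟩, ?_, hb⟩
      have h2 : d ∣ Nat.gcd d a * b := Nat.dvd_gcd_mul_iff_dvd_mul.2 hd1
      have hg : 0 < Nat.gcd d a := Nat.gcd_pos_of_pos_right _ (Nat.pos_of_ne_zero ha)
      have h3 := hdec d hd
      have h4 : Nat.gcd d a * (d / Nat.gcd d a) ∣ Nat.gcd d a * b := by
        rwa [h3]
      exact Nat.dvd_of_mul_dvd_mul_left hg h4
    refine (Finset.sum_le_sum_of_subset hsub).trans ?_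
    rw [Finset.sum_mul_sum, ← Finset.sum_product']
    refine Finset.sum_le_sum fun p hp => ?_
    rw [Finset.mem_product] at hp
    exact ih p.1 p.2 (Nat.pos_of_mem_divisors hp.1).ne' (Nat.pos_of_mem_divisors hp.2).ne'

theorem TAU : TAU_stmt := by
  refine ⟨TAU_mul, ?_, ?_, TAU_one', ?_⟩
  · intro j p hp
    induction j with
    | zero => rw [TAU_zero, if_neg hp.one_lt.ne']
    | succ j ih =>
      rw [TAU_succ, hp.divisors, Finset.sum_pair hp.one_lt.ne, TAU_one, ih, add_comm]
  · intro j n hn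
    rw [TAU_succ]
    calc 1 = tau j 1 := (TAU_one j).symm
      _ ≤ ∑ d ∈ n.divisors, tau j d :=
        Finset.single_le_sum (f := fun d => tau j d) (fun _ _ => Nat.zero_le _) (Nat.mem_divisors.2 ⟨one_dvd _, hn⟩)
  · intro n
    rw [TAU_succ, Finset.sum_congr rfl fun d hd => TAU_one' d (Nat.pos_of_mem_divisors hd).ne', Finset.sum_const,
      smul_eq_mul, mul_one]

end Pool.Agent.PHN
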